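import Pool.Agent.Helper5.LCU.Stmts
import Pool.Agent.Helper89.UB.Stmts

set_option autoImplicit false

open Finset Pool.Agent.Helper89.UB

namespace Pool.Agent.Helper5.LCU

theorem jn_fp_inter {n : ℕ} (E : Finset (Finset (Fin n))) (A B X : Finset (Fin n))
    (hE : ∀ a ∈ A, ∀ b ∈ B, ({a, b} : Finset (Fin n)) ∈ E) (hX : X ⊆ A ∪ B)
    (hA : ¬ X ⊆ A) (hB : ¬ X ⊆ B) : fp E X = 0 := by
  classical
  unfold fp
  rw [if_neg]
  rintro ⟨_, h⟩
  obtain ⟨u, hu, hu'⟩ := Finset.not_subset.1 hA
  obtain ⟨v, hv, hv'⟩ := Finset.not_subset.1 hB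
  have huB : u ∈ B := by
    rcases mem_union.1 (hX hu) with h1 | h1
    · exact absurd h1 hu'
    · exact h1
  have hvA : v ∈ A := by
    rcases mem_union.1 (hX hv) with h1 | h1
    · exact h1
    · exact absurd h1 hv'
  refine h {v, u} (hE v hvA u huB) ?_
  intro w hw
  rw [mem_insert, mem_singleton] at hw
  rcases hw with rfl | rfl
  · exact hv
  · exact hu

theorem jn_fp_empty {n : ℕ} (E : Finset (Finset (Fin n))) : fp E ∅ = 0 := by
  classical
  unfold fp
  rw [if_neg]
  rintro ⟨h, _⟩
  exact Finset.not_nonempty_empty h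

theorem jn_split {n : ℕ} (E : Finset (Finset (Fin n))) (A B : Finset (Fin n))
    (hd : Disjoint A B) (hE : ∀ a ∈ A, ∀ b ∈ B, ({a, b} : Finset (Fin n)) ∈ E)
    (g : Finset (Fin n) → ℤ) :
    ∑ X ∈ (A ∪ B).powerset, fp E X * g X =
      ∑ X ∈ A.powerset, fp E X * g X + ∑ X ∈ B.powerset, fp E X * g X := by
  classical
  have h0 : ∀ X ∈ (A ∪ B).powerset, X ∉ A.powerset ∪ B.powerset → fp E X * g X = 0 := by
    intro X hX hX'
    rw [mem_union, mem_powerset, mem_powerset, not_or] at hX'
    rw [jn_fp_inter E A B X hE (mem_powerset.1 hX) hX'.1 hX'.2, zero_mul]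
  have hs : A.powerset ∪ B.powerset ⊆ (A ∪ B).powerset := by
    intro X hX
    rw [mem_union, mem_powerset, mem_powerset] at hX
    rw [mem_powerset]
    rcases hX with h | h
    · exact h.trans subset_union_left
    · exact h.trans subset_union_right
  rw [← Finset.sum_subset hs h0, ← Finset.sum_union_inter]
  have h1 : ∑ X ∈ A.powerset ∩ B.powerset, fp E X * g X = 0 := by
    apply Finset.sum_eq_zero
    intro X hX
    rw [mem_inter, mem_powerset, mem_powerset] at hX
    have : X = ∅ := by
      have h2 := hd (show X ≤ A from hX.1) (show X ≤ B from hX.2)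
      exact Finset.subset_empty.1 h2
    rw [this, jn_fp_empty, zero_mul]
  rw [h1, add_zero]

theorem jn_pw {n : ℕ} (E : Finset (Finset (Fin n))) (m : ℕ) : ∀ A B : Finset (Fin n),
    Disjoint A B → (∀ a ∈ A, ∀ b ∈ B, ({a, b} : Finset (Fin n)) ∈ E) →
    pw (fp E) m (A ∪ B) =
      ∑ i ∈ range (m + 1), (m.choose i : ℤ) * (pw (fp E) i A * pw (fp E) (m - i) B) := by
  classical
  induction m with
  | zero =>
    intro A B _ _
    simp only [zero_add, range_one, sum_singleton, Nat.choose_self, Nat.cast_one, one_mul,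
      Nat.sub_zero]
    show (if A ∪ B = ∅ then (1 : ℤ) else 0) =
      (if A = ∅ then (1 : ℤ) else 0) * (if B = ∅ then (1 : ℤ) else 0)
    have hu : A ∪ B = ∅ ↔ A = ∅ ∧ B = ∅ := Finset.union_eq_empty
    by_cases h1 : A = ∅
    · by_cases h2 : B = ∅
      · rw [if_pos (hu.2 ⟨h1, h2⟩), if_pos h1, if_pos h2, one_mul]
      · rw [if_neg (fun h => h2 (hu.1 h).2), if_neg h2, mul_zero]
    · rw [if_neg (fun h => h1 (hu.1 h).1), if_neg h1, zero_mul]
  | succ m ih =>
    intro A B hd hE
    have e1 : pw (fp E) (m + 1) (A ∪ B) =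
        ∑ X ∈ (A ∪ B).powerset, fp E X * pw (fp E) m ((A ∪ B) \ X) := rfl
    rw [e1, jn_split E A B hd hE]
    have hA : ∑ X ∈ A.powerset, fp E X * pw (fp E) m ((A ∪ B) \ X) =
        ∑ i ∈ range (m + 1), (m.choose i : ℤ) * (pw (fp E) (i + 1) A * pw (fp E) (m - i) B) := by
      have h1 : ∀ X ∈ A.powerset, fp E X * pw (fp E) m ((A ∪ B) \ X) =
          ∑ i ∈ range (m + 1), (m.choose i : ℤ) *
            ((fp E X * pw (fp E) i (A \ X)) * pw (fp E) (m - i) B) := by
        intro X hX
        rw [mem_powerset] at hX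
        have h2 : (A ∪ B) \ X = (A \ X) ∪ B := by
          rw [Finset.union_sdiff_distrib, Finset.sdiff_eq_self_of_disjoint
            (hd.symm.mono_right hX)]
        rw [h2, ih (A \ X) B (hd.mono_left sdiff_subset)
          (fun a ha b hb => hE a (sdiff_subset ha) b hb), mul_sum]
        apply sum_congr rfl
        intro i _
        ring
      rw [sum_congr rfl h1, sum_comm]
      apply sum_congr rfl
      intro i _
      rw [← mul_sum, ← sum_mul]
      rfl
    have hB : ∑ X ∈ B.powerset, fp E X * pw (fp E) m ((A ∪ B) \ X) =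
        ∑ i ∈ range (m + 1), (m.choose i : ℤ) *
          (pw (fp E) i A * pw (fp E) (m + 1 - i) B) := by
      have h1 : ∀ X ∈ B.powerset, fp E X * pw (fp E) m ((A ∪ B) \ X) =
          ∑ i ∈ range (m + 1), (m.choose i : ℤ) *
            (pw (fp E) i A * (fp E X * pw (fp E) (m - i) (B \ X))) := by
        intro X hX
        rw [mem_powerset] at hX
        have h2 : (A ∪ B) \ X = A ∪ (B \ X) := by
          rw [Finset.union_sdiff_distrib, Finset.sdiff_eq_self_of_disjoint
            (hd.mono_right hX)]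
        rw [h2, ih A (B \ X) (hd.mono_right sdiff_subset)
          (fun a ha b hb => hE a ha b (sdiff_subset hb)), mul_sum]
        apply sum_congr rfl
        intro i _
        ring
      rw [sum_congr rfl h1, sum_comm]
      apply sum_congr rfl
      intro i hi
      rw [← mul_sum, ← mul_sum]
      have h3 : m + 1 - i = (m - i) + 1 := by
        have := mem_range.1 hi
        omega
      rw [h3]
      rfl
    rw [hA, hB, add_comm]
    exact (Finset.sum_choose_succ_mul (R := ℤ) (fun i j => pw (fp E) i A * pw (fp E) j B) m).symm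

theorem st_JN (hS : ST_SURC) : ST_JN := by
  intro n E A B hd hE m
  have h := jn_pw E m A B hd hE
  rw [← hS n E m (A ∪ B)] at h
  have h' : (sur E (A ∪ B) m : ℝ) = ((sur E (A ∪ B) m : ℤ) : ℝ) := by norm_cast
  rw [h', h]
  unfold BC
  push_cast
  apply sum_congr rfl
  intro i _
  rw [← hS n E i A, ← hS n E (m - i) B]
  push_cast
  ring

end Pool.Agent.Helper5.LCU
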